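import Mathlib
import Pool.Agent.H.MP_6132b6_co.Cube
import Pool.Agent.H.MP_6132b6_co.Mat

set_option autoImplicit false

namespace Pool.Agent.Results.MP_6132b6_co.Small

/-- `S` is a facet of the Vietoris-Rips complex of the `n`-cube at scale `r`: a nonempty set of
diameter at most `r` that is not properly contained in another set of diameter at most `r` -/
def IsFacet (n r : ℕ) (S : Finset (Fin n → Bool)) : Prop :=
  S.Nonempty ∧ (∀ x ∈ S, ∀ y ∈ S, hammingDist x y ≤ r) ∧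
    ∀ S' : Finset (Fin n → Bool), S ⊆ S' → (∀ x ∈ S', ∀ y ∈ S', hammingDist x y ≤ r) → S' = S

open Pool.Agent.H.MP_6132b6_co in
theorem result : ∀ c : ℝ, 0 < c → ∃ r : ℕ, 1 ≤ r ∧ ∃ N : ℕ, ∀ n : ℕ, N ≤ n →
    ∃ S : Finset (Fin n → Bool), IsFacet n r S ∧ (S.card : ℝ) < c * r := by
  intro c hc
  obtain ⟨a, ha⟩ := pow_unbounded_of_one_lt (2 / c) (by norm_num : (1 : ℝ) < 3)
  obtain ⟨g, r, N, hg, hr, h⟩ := facet (I := II a) (K := KK a) (P := PP a) ZZ ZZ_pm ZZ_orth attain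
  simp only [Fintype.card_fun, Fintype.card_fin] at hr h
  have hr' : (2 * r : ℝ) = g * 24 ^ a := by exact_mod_cast hr
  refine ⟨r, ?_, N, fun n hn => ?_⟩
  · have : 0 < g * 24 ^ a := by positivity
    omega
  · obtain ⟨S, h1, h2, h3, h4⟩ := h n hn
    refine ⟨S, ⟨h1, h2, h3⟩, ?_⟩
    have h5 : (S.card : ℝ) ≤ 8 ^ a * g := by exact_mod_cast h4
    have h6 : (24 : ℝ) ^ a = 8 ^ a * 3 ^ a := by rw [← mul_pow]; norm_num
    rw [div_lt_iff₀ hc] at ha
    have h7 : (0 : ℝ) < 8 ^ a * g := by positivity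
    have h8 : c * r = 8 ^ a * g * (3 ^ a * c) / 2 := by
      have : (r : ℝ) = g * (8 ^ a * 3 ^ a) / 2 := by rw [← h6]; linarith
      rw [this]; ring
    rw [h8]
    nlinarith

end Pool.Agent.Results.MP_6132b6_co.Small
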